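import Mathlib

namespace Pool.Agent.H.MP_b5bf4a_co

open Finset

/-- general position -/
def GP (n : ℕ) (P : ℕ → ℝ × ℝ) : Prop :=
  (∀ i < n, ∀ j < n, P i = P j → i = j) ∧
    ∀ i < n, ∀ j < n, ∀ k < n, i ≠ j → i ≠ k → j ≠ k → ¬ Collinear ℝ {P i, P j, P k}

/-- the line meets the open segment -/
def Meets (P : ℕ → ℝ × ℝ) (α β γ : ℝ) (e : ℕ × ℕ) : Prop :=
  ∃ z ∈ openSegment ℝ (P e.1) (P e.2), α * z.1 + β * z.2 = γ

open Classical in
lemma cut_le (n : ℕ) (P : ℕ → ℝ × ℝ) (E : Finset (ℕ × ℕ)) (hE : ∀ e ∈ E, e.1 < e.2 ∧ e.2 < n)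
    (K : ℕ) (hK : ∀ α β γ : ℝ, (α ≠ 0 ∨ β ≠ 0) → (E.filter (Meets P α β γ)).card ≤ K)
    (α β γ : ℝ) (h0 : α ≠ 0 ∨ β ≠ 0) :
    (E.filter (fun e => ¬ ((γ < α * (P e.1).1 + β * (P e.1).2) ↔
      (γ < α * (P e.2).1 + β * (P e.2).2)))).card ≤ K := by
  have hε : ∃ ε : ℝ, 0 < ε ∧ ∀ i < n, γ < α * (P i).1 + β * (P i).2 →
      γ + ε < α * (P i).1 + β * (P i).2 := by
    induction n with
    | zero => exact ⟨1, one_pos, fun i hi => absurd hi (by omega)⟩
    | succ n ih =>
      clear ih hE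
      have : ∀ m : ℕ, ∃ ε : ℝ, 0 < ε ∧ ∀ i < m, γ < α * (P i).1 + β * (P i).2 →
          γ + ε < α * (P i).1 + β * (P i).2 := by
        intro m
        induction m with
        | zero => exact ⟨1, one_pos, fun i hi => absurd hi (by omega)⟩
        | succ m ih =>
          obtain ⟨ε, hε, h⟩ := ih
          by_cases hm : γ < α * (P m).1 + β * (P m).2
          · refine ⟨min ε ((α * (P m).1 + β * (P m).2 - γ) / 2), lt_min hε (by linarith), ?_⟩
            intro i hi hi'
            have a1 := min_le_left ε ((α * (P m).1 + β * (P m).2 - γ) / 2)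
            have a2 := min_le_right ε ((α * (P m).1 + β * (P m).2 - γ) / 2)
            rcases Nat.lt_succ_iff_lt_or_eq.1 hi with h1 | rfl
            · linarith [h i h1 hi']
            · linarith
          · refine ⟨ε, hε, fun i hi hi' => ?_⟩
            rcases Nat.lt_succ_iff_lt_or_eq.1 hi with h1 | rfl
            · exact h i h1 hi'
            · exact absurd hi' hm
      exact this _
  obtain ⟨ε, hε, h⟩ := hε
  refine le_trans (card_le_card ?_) (hK α β (γ + ε) h0)
  intro e he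
  rw [mem_filter] at he ⊢
  refine ⟨he.1, ?_⟩
  have h1 := h e.1 (by have := hE e he.1; omega)
  have h2 := h e.2 (hE e he.1).2
  set x := α * (P e.1).1 + β * (P e.1).2 with hx
  set y := α * (P e.2).1 + β * (P e.2).2 with hy
  have key : (x < γ + ε ∧ γ + ε < y) ∨ (y < γ + ε ∧ γ + ε < x) := by
    have h3 := he.2
    by_cases c1 : γ < x
    · have c2 : ¬ γ < y := fun c2 => h3 (iff_of_true c1 c2)
      right; exact ⟨by linarith [not_lt.1 c2], h1 c1⟩
    · have c2 : γ < y := by
        by_contra c2; exact h3 (iff_of_false c1 c2)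
      left; exact ⟨by linarith [not_lt.1 c1], h2 c2⟩
  have hxy : y - x ≠ 0 := by rcases key with k | k <;> intro h' <;> linarith [k.1, k.2]
  refine ⟨((y - (γ + ε)) / (y - x)) • P e.1 + ((γ + ε - x) / (y - x)) • P e.2,
    ⟨_, _, ?_, ?_, ?_, rfl⟩, ?_⟩
  · rcases key with k | k
    · exact div_pos (by linarith [k.1, k.2]) (by linarith [k.1, k.2])
    · exact div_pos_of_neg_of_neg (by linarith [k.1, k.2]) (by linarith [k.1, k.2])
  · rcases key with k | k
    · exact div_pos (by linarith [k.1, k.2]) (by linarith [k.1, k.2])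
    · exact div_pos_of_neg_of_neg (by linarith [k.1, k.2]) (by linarith [k.1, k.2])
  · field_simp; ring
  · simp only [Prod.fst_add, Prod.snd_add, Prod.smul_fst, Prod.smul_snd, smul_eq_mul]
    have : α * ((y - (γ + ε)) / (y - x) * (P e.1).1 + (γ + ε - x) / (y - x) * (P e.2).1) +
        β * ((y - (γ + ε)) / (y - x) * (P e.1).2 + (γ + ε - x) / (y - x) * (P e.2).2) =
        (y - (γ + ε)) / (y - x) * x + (γ + ε - x) / (y - x) * y := by
      rw [hx, hy]; ring
    rw [this]; field_simp; ring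

open Classical in
lemma avg_cut (A : Finset ℕ) (σ : ℕ → ℝ) (hσ : ∀ p ∈ A, ∀ q ∈ A, σ p = σ q → p = q)
    (E : Finset (ℕ × ℕ)) (hE : ∀ e ∈ E, e.1 < e.2 ∧ e.1 ∈ A ∧ e.2 ∈ A) (t : ℕ) :
    2 * (t + 1) * E.card ≤
      2 * ∑ a ∈ A, (E.filter (fun e => ¬ ((σ e.1 < σ a) ↔ (σ e.2 < σ a)))).card +
        A.card * (t * (t + 1)) := by
  let r : ℕ → ℕ := fun p => (A.filter (fun a => σ a ≤ σ p)).card
  have hr : ∀ p q, σ p ≤ σ q → r q = r p + (A.filter (fun a => σ p < σ a ∧ σ a ≤ σ q)).card := by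
    intro p q hpq
    rw [← card_union_of_disjoint]
    · refine congrArg Finset.card ?_
      ext a
      simp only [mem_union, mem_filter]
      constructor
      · rintro ⟨h1, h2⟩
        by_cases h : σ a ≤ σ p
        · exact Or.inl ⟨h1, h⟩
        · exact Or.inr ⟨h1, not_le.1 h, h2⟩
      · rintro (⟨h1, h2⟩ | ⟨h1, _, h2⟩)
        · exact ⟨h1, h2.trans hpq⟩
        · exact ⟨h1, h2⟩
    · rw [disjoint_filter]
      intro a _ h1 h2
      linarith [h2.1]
  have hlt : ∀ p, ∀ q ∈ A, σ p < σ q → r p < r q := by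
    intro p q hq hpq
    have := hr p q hpq.le
    have : 0 < (A.filter (fun a => σ p < σ a ∧ σ a ≤ σ q)).card :=
      card_pos.2 ⟨q, mem_filter.2 ⟨hq, hpq, le_rfl⟩⟩
    omega
  have hinj : ∀ p ∈ A, ∀ q ∈ A, r p = r q → p = q := by
    intro p hp q hq h
    rcases lt_trichotomy (σ p) (σ q) with h1 | h1 | h1
    · have := hlt p q hq h1; omega
    · exact hσ p hp q hq h1
    · have := hlt q p hp h1; omega
  have hr1 : ∀ p ∈ A, 1 ≤ r p ∧ r p ≤ A.card := fun p hp =>
    ⟨card_pos.2 ⟨p, mem_filter.2 ⟨hp, le_rfl⟩⟩, card_filter_le _ _⟩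
  let len : ℕ × ℕ → ℕ := fun e => (A.filter (fun a => ¬ ((σ e.1 < σ a) ↔ (σ e.2 < σ a)))).card
  have hlen : ∀ e : ℕ × ℕ, r e.2 = r e.1 + len e ∨ r e.1 = r e.2 + len e := by
    intro e
    rcases le_total (σ e.1) (σ e.2) with h | h
    · left
      rw [hr _ _ h]
      congr 2
      refine filter_congr fun a _ => ?_
      constructor
      · rintro ⟨h1, h2⟩ h3; linarith [h3.1 h1]
      · intro h3
        by_cases c : σ e.2 < σ a
        · exact absurd (iff_of_true (by linarith) c) h3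
        · refine ⟨?_, not_lt.1 c⟩
          by_contra c2; exact h3 (iff_of_false c2 c)
    · right
      rw [hr _ _ h]
      congr 2
      refine filter_congr fun a _ => ?_
      constructor
      · rintro ⟨h1, h2⟩ h3; linarith [h3.2 h1]
      · intro h3
        by_cases c : σ e.1 < σ a
        · exact absurd (iff_of_true c (by linarith)) h3
        · refine ⟨?_, not_lt.1 c⟩
          by_contra c2; exact h3 (iff_of_false c c2)
  have hswap : ∑ a ∈ A, (E.filter (fun e => ¬ ((σ e.1 < σ a) ↔ (σ e.2 < σ a)))).card =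
      ∑ e ∈ E, len e := by
    simp only [len, card_filter]
    exact sum_comm
  have hcnt : ∀ s : ℕ, (E.filter (fun e => len e ≤ s)).card ≤ A.card * s := by
    intro s
    have : (E.filter (fun e => len e ≤ s)).card ≤ (Icc 1 A.card ×ˢ Icc 1 s).card := by
      apply card_le_card_of_injOn (fun e => (min (r e.1) (r e.2), len e))
      · intro e he
        rw [mem_coe, mem_filter] at he
        obtain ⟨h1, h2, h3⟩ := hE e he.1
        have a1 := hr1 _ h2
        have a2 := hr1 _ h3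
        have a3 := hlen e
        have a4 : r e.1 ≠ r e.2 := fun h => by have := hinj _ h2 _ h3 h; omega
        have a5 := he.2
        rw [mem_coe, mem_product, mem_Icc, mem_Icc]
        simp only
        omega
      · intro e he e' he' h
        rw [mem_coe, mem_filter] at he he'
        obtain ⟨h1, h2, h3⟩ := hE e he.1
        obtain ⟨h1', h2', h3'⟩ := hE e' he'.1
        simp only [Prod.mk.injEq] at h
        have a3 := hlen e
        have a4 := hlen e'
        have a5 : (r e.1 = r e'.1 ∧ r e.2 = r e'.2) ∨ (r e.1 = r e'.2 ∧ r e.2 = r e'.1) := by omega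
        rcases a5 with a5 | a5
        · exact Prod.ext (hinj _ h2 _ h2' a5.1) (hinj _ h3 _ h3' a5.2)
        · have := hinj _ h2 _ h3' a5.1
          have := hinj _ h3 _ h2' a5.2
          omega
    simpa using this
  have hpt : ∀ e ∈ E, t + 1 ≤ len e + ∑ s ∈ range (t + 1), (if len e ≤ s then 1 else 0) := by
    intro e _
    rw [← card_filter]
    have : (Ico (len e) (t + 1)).card ≤ ((range (t + 1)).filter (fun s => len e ≤ s)).card := by
      apply card_le_card
      intro s hs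
      rw [mem_Ico] at hs
      exact mem_filter.2 ⟨mem_range.2 hs.2, hs.1⟩
    rw [Nat.card_Ico] at this
    omega
  have h1 := sum_le_sum hpt
  rw [sum_const, smul_eq_mul, sum_add_distrib, sum_comm] at h1
  have h2 : ∑ s ∈ range (t + 1), ∑ e ∈ E, (if len e ≤ s then 1 else 0) ≤
      ∑ s ∈ range (t + 1), A.card * s := by
    refine sum_le_sum fun s _ => ?_
    rw [← card_filter]; exact hcnt s
  rw [← mul_sum] at h2
  have h3 := Finset.sum_range_id_mul_two (t + 1)
  rw [hswap]
  simp only [Nat.add_sub_cancel] at h3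
  have h4 : A.card * (t * (t + 1)) = 2 * (A.card * ∑ i ∈ range (t + 1), i) := by
    rw [mul_comm t, ← h3]; ring
  rw [h4]
  nlinarith

lemma halves (n : ℕ) (u : ℕ → ℝ) (hu : ∀ i < n, ∀ j < n, u i = u j → i = j) (m : ℕ) (hm : m ≤ n) :
    ∃ A ⊆ range n, A.card = m ∧ ∀ p ∈ A, ∀ q ∈ range n \ A, u p < u q := by
  induction m with
  | zero => exact ⟨∅, by simp, rfl, by simp⟩
  | succ m ih =>
    obtain ⟨A, h1, h2, h3⟩ := ih (by omega)
    have hne : (range n \ A).Nonempty := by
      rw [← card_pos, card_sdiff_of_subset h1, card_range]; omega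
    obtain ⟨q, hq, hmin⟩ := exists_min_image _ u hne
    refine ⟨insert q A, insert_subset (mem_sdiff.1 hq).1 h1,
      by rw [card_insert_of_notMem (mem_sdiff.1 hq).2, h2], ?_⟩
    intro p hp q' hq'
    rw [mem_sdiff, mem_insert, not_or] at hq'
    have hq'' : q' ∈ range n \ A := mem_sdiff.2 ⟨hq'.1, hq'.2.2⟩
    rcases mem_insert.1 hp with rfl | hp
    · refine lt_of_le_of_ne (hmin _ hq'') fun h => hq'.2.1 ?_
      exact (hu _ (mem_range.1 (mem_sdiff.1 hq).1) _ (mem_range.1 hq'.1) h).symm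
    · exact h3 p hp q' hq''

lemma dir (n : ℕ) (P : ℕ → ℝ × ℝ) (hP : ∀ i < n, ∀ j < n, P i = P j → i = j) :
    ∃ t : ℝ, ∀ i < n, ∀ j < n, (P i).1 + t * (P i).2 = (P j).1 + t * (P j).2 → i = j := by
  classical
  obtain ⟨t, ht⟩ := Infinite.exists_notMem_finset ((range n ×ˢ range n).image
    (fun e => ((P e.2).1 - (P e.1).1) / ((P e.1).2 - (P e.2).2)))
  refine ⟨t, fun i hi j hj h => ?_⟩
  by_cases hy : (P i).2 - (P j).2 = 0
  · apply hP i hi j hj
    have h2 : (P i).2 = (P j).2 := by linarith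
    rw [h2] at h
    exact Prod.ext (by linarith) h2
  · exfalso
    apply ht
    refine mem_image.2 ⟨(i, j), mem_product.2 ⟨mem_range.2 hi, mem_range.2 hj⟩, ?_⟩
    simp only
    field_simp
    linarith

lemma slope_inj {n : ℕ} {P : ℕ → ℝ × ℝ} (hP : GP n P) (t : ℝ) {b p q : ℕ} (hb : b < n) (hp : p < n)
    (hq : q < n)
    (h1 : (P b).1 + t * (P b).2 - ((P p).1 + t * (P p).2) ≠ 0)
    (h2 : (P b).1 + t * (P b).2 - ((P q).1 + t * (P q).2) ≠ 0)
    (h : ((P b).2 - (P p).2) / ((P b).1 + t * (P b).2 - ((P p).1 + t * (P p).2)) =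
      ((P b).2 - (P q).2) / ((P b).1 + t * (P b).2 - ((P q).1 + t * (P q).2))) : p = q := by
  by_contra hne
  have hbp : b ≠ p := by rintro rfl; exact h1 (sub_self _)
  have hbq : b ≠ q := by rintro rfl; exact h2 (sub_self _)
  apply hP.2 b hb p hp q hq hbp hbq hne
  set s := ((P b).2 - (P q).2) / ((P b).1 + t * (P b).2 - ((P q).1 + t * (P q).2)) with hs
  have e1 : (P b).2 - (P p).2 = s * ((P b).1 + t * (P b).2 - ((P p).1 + t * (P p).2)) := by
    rw [← h, div_mul_cancel₀ _ h1]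
  have e2 : (P b).2 - (P q).2 = s * ((P b).1 + t * (P b).2 - ((P q).1 + t * (P q).2)) := by
    rw [hs, div_mul_cancel₀ _ h2]
  rw [collinear_iff_of_mem (p₀ := P b) (by simp)]
  refine ⟨(1 - t * s, s), ?_⟩
  intro z hz
  simp only [Set.mem_insert_iff, Set.mem_singleton_iff] at hz
  rcases hz with rfl | rfl | rfl
  · exact ⟨0, by simp⟩
  · refine ⟨-((P b).1 + t * (P b).2 - ((P p).1 + t * (P p).2)), Prod.ext ?_ ?_⟩
    · simp only [vadd_eq_add, Prod.fst_add, Prod.smul_fst, smul_eq_mul]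
      linear_combination t * e1
    · simp only [vadd_eq_add, Prod.snd_add, Prod.smul_snd, smul_eq_mul]
      linear_combination (-1) * e1
  · refine ⟨-((P b).1 + t * (P b).2 - ((P q).1 + t * (P q).2)), Prod.ext ?_ ?_⟩
    · simp only [vadd_eq_add, Prod.fst_add, Prod.smul_fst, smul_eq_mul]
      linear_combination t * e2
    · simp only [vadd_eq_add, Prod.snd_add, Prod.smul_snd, smul_eq_mul]
      linear_combination (-1) * e2

open Classical in
theorem upper {n : ℕ} (hn : 2 ≤ n) {P : ℕ → ℝ × ℝ} (hP : GP n P) (E : Finset (ℕ × ℕ))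
    (hE : ∀ e ∈ E, e.1 < e.2 ∧ e.2 < n)
    (K : ℕ) (hK : ∀ α β γ : ℝ, (α ≠ 0 ∨ β ≠ 0) → (E.filter (Meets P α β γ)).card ≤ K) (t : ℕ) :
    2 * (t + 1) * E.card ≤ 2 * (t + 1) * K + (n + 1) * (K + t * (t + 1)) := by
  obtain ⟨τ, hτ⟩ := dir n P hP.1
  set u : ℕ → ℝ := fun i => (P i).1 + τ * (P i).2 with hu
  obtain ⟨A, hA1, hA2, hA3⟩ := halves n u hτ (n / 2) (by omega)
  set B := range n \ A with hB
  have hBc : B.card = n - n / 2 := by rw [hB, card_sdiff_of_subset hA1, card_range, hA2]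
  have hAn : ∀ p ∈ A, p < n := fun p hp => mem_range.1 (hA1 hp)
  have hBn : ∀ p ∈ B, p < n := fun p hp => mem_range.1 (mem_sdiff.1 hp).1
  set EA := E.filter (fun e => e.1 ∈ A ∧ e.2 ∈ A) with hEA
  set EB := E.filter (fun e => e.1 ∈ B ∧ e.2 ∈ B) with hEB
  have hcut := cut_le n P E hE K hK
  have h1 : E.card ≤ EA.card + EB.card + K := by
    obtain ⟨c, hc, hmax⟩ := exists_max_image A u (by rw [← card_pos]; omega)
    have a1 := hcut 1 τ (u c) (Or.inl one_ne_zero)
    refine le_trans (card_le_card ?_) ((card_union_le _ _).trans (add_le_add (card_union_le _ _) a1))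
    intro e he
    have a2 := hE e he
    have m1 : e.1 ∈ A ∨ e.1 ∈ B := by
      by_cases h : e.1 ∈ A
      · exact Or.inl h
      · exact Or.inr (mem_sdiff.2 ⟨mem_range.2 (by omega), h⟩)
    have m2 : e.2 ∈ A ∨ e.2 ∈ B := by
      by_cases h : e.2 ∈ A
      · exact Or.inl h
      · exact Or.inr (mem_sdiff.2 ⟨mem_range.2 (by omega), h⟩)
    simp only [mem_union, mem_filter, hEA, hEB, one_mul]
    rcases m1 with m1 | m1 <;> rcases m2 with m2 | m2
    · exact Or.inl (Or.inl ⟨he, m1, m2⟩)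
    · exact Or.inr ⟨he, fun h => absurd (h.2 (hA3 c hc _ m2)) (not_lt.2 (hmax _ m1))⟩
    · exact Or.inr ⟨he, fun h => absurd (h.1 (hA3 c hc _ m1)) (not_lt.2 (hmax _ m2))⟩
    · exact Or.inl (Or.inr ⟨he, m1, m2⟩)
  let σ : ℕ → ℕ → ℝ := fun b p => ((P b).2 - (P p).2) / (u b - u p)
  let cA : ℕ → ℕ → ℕ := fun a b =>
    (EA.filter (fun e => ¬ ((σ b e.1 < σ b a) ↔ (σ b e.2 < σ b a)))).card
  let cB : ℕ → ℕ → ℕ := fun a b =>
    (EB.filter (fun e => ¬ ((-σ a e.1 < -σ a b) ↔ (-σ a e.2 < -σ a b)))).card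
  have h2 : ∀ a ∈ A, ∀ b ∈ B, cA a b + cB a b ≤ K := by
    intro a ha b hb
    have hab : 0 < u b - u a := sub_pos.2 (hA3 a ha b hb)
    have a1 := hcut (-((P b).2 - (P a).2)) ((u b - u a) - τ * ((P b).2 - (P a).2))
      ((P a).2 * (u b - u a) - ((P b).2 - (P a).2) * u a) (by
        by_cases h : (P b).2 - (P a).2 = 0
        · right; rw [h]; linarith
        · left; exact neg_ne_zero.2 h)
    have sA : ∀ p ∈ A, (σ b p < σ b a ↔ (P a).2 * (u b - u a) - ((P b).2 - (P a).2) * u a <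
        -((P b).2 - (P a).2) * (P p).1 + ((u b - u a) - τ * ((P b).2 - (P a).2)) * (P p).2) := by
      intro p hp
      have hpb : 0 < u b - u p := sub_pos.2 (hA3 p hp b hb)
      have e : (P p).1 = u p - τ * (P p).2 := by simp [hu]
      simp only [σ]
      rw [div_lt_div_iff₀ hpb hab, e]
      constructor <;> intro h <;> nlinarith
    have sB : ∀ p ∈ B, (-σ a p < -σ a b ↔ (P a).2 * (u b - u a) - ((P b).2 - (P a).2) * u a <
        -((P b).2 - (P a).2) * (P p).1 + ((u b - u a) - τ * ((P b).2 - (P a).2)) * (P p).2) := by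
      intro p hp
      have hpb : 0 < u p - u a := sub_pos.2 (hA3 a ha p hp)
      have e : (P p).1 = u p - τ * (P p).2 := by simp [hu]
      simp only [σ]
      rw [neg_lt_neg_iff, ← neg_div_neg_eq, ← neg_div_neg_eq ((P a).2 - (P p).2), neg_sub, neg_sub,
        neg_sub, neg_sub, div_lt_div_iff₀ hab hpb, e]
      constructor <;> intro h <;> nlinarith
    refine le_trans ?_ a1
    simp only [cA, cB]
    rw [← card_union_of_disjoint]
    · apply card_le_card
      intro e he
      rcases mem_union.1 he with he | he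
      · rw [mem_filter, hEA, mem_filter] at he
        refine mem_filter.2 ⟨he.1.1, ?_⟩
        rw [← sA _ he.1.2.1, ← sA _ he.1.2.2]; exact he.2
      · rw [mem_filter, hEB, mem_filter] at he
        refine mem_filter.2 ⟨he.1.1, ?_⟩
        rw [← sB _ he.1.2.1, ← sB _ he.1.2.2]; exact he.2
    · rw [disjoint_left]
      intro e h1 h2
      exact (mem_sdiff.1 (mem_filter.1 (mem_filter.1 h2).1).2.1).2
        (mem_filter.1 (mem_filter.1 h1).1).2.1
  have h3 : ∀ b ∈ B, 2 * (t + 1) * EA.card ≤ 2 * ∑ a ∈ A, cA a b + A.card * (t * (t + 1)) := by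
    intro b hb
    refine avg_cut A (σ b) (fun p hp q hq h => ?_) EA (fun e he => ?_) t
    · exact slope_inj hP τ (hBn b hb) (hAn p hp) (hAn q hq) (sub_pos.2 (hA3 p hp b hb)).ne'
        (sub_pos.2 (hA3 q hq b hb)).ne' h
    · exact ⟨(hE e (mem_filter.1 he).1).1, (mem_filter.1 he).2⟩
  have h4 : ∀ a ∈ A, 2 * (t + 1) * EB.card ≤ 2 * ∑ b ∈ B, cB a b + B.card * (t * (t + 1)) := by
    intro a ha
    refine avg_cut B (fun p => -σ a p) (fun p hp q hq h => ?_) EB (fun e he => ?_) t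
    · exact slope_inj hP τ (hAn a ha) (hBn p hp) (hBn q hq) (sub_neg.2 (hA3 a ha p hp)).ne
        (sub_neg.2 (hA3 a ha q hq)).ne (neg_injective h)
    · exact ⟨(hE e (mem_filter.1 he).1).1, (mem_filter.1 he).2⟩
  have s3 := sum_le_sum h3
  have s4 := sum_le_sum h4
  have s2 := sum_le_sum (fun a ha => sum_le_sum (h2 a ha))
  simp only [sum_add_distrib, sum_const, smul_eq_mul, ← mul_sum] at s2 s3 s4
  rw [sum_comm] at s3
  have hAB : A.card ≤ B.card := by omega
  have hA0 : 0 < A.card := by omega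
  have h5 : A.card * (2 * (t + 1) * (EA.card + EB.card)) ≤
      A.card * (2 * B.card * (K + t * (t + 1))) := by
    have := Nat.mul_le_mul_right (2 * (t + 1) * EA.card) hAB
    nlinarith
  have h6 := Nat.le_of_mul_le_mul_left h5 hA0
  have h7 : 2 * B.card * (K + t * (t + 1)) ≤ (n + 1) * (K + t * (t + 1)) :=
    Nat.mul_le_mul_right _ (by omega)
  have h8 := Nat.mul_le_mul_left (2 * (t + 1)) h1
  nlinarith

end Pool.Agent.H.MP_b5bf4a_co
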