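import Pool.Agent.H.MP_b5bf4a_co.A

namespace Pool.Agent.H.MP_b5bf4a_co

open Finset

/-- points on the parabola -/
def Par (i : ℕ) : ℝ × ℝ := ((i : ℝ), (i : ℝ) ^ 2)

lemma par_GP (n : ℕ) : GP n Par := by
  refine ⟨fun i _ j _ h => ?_, fun i _ j _ k _ hij hik hjk hc => ?_⟩
  · exact_mod_cast (show (i : ℝ) = j from congrArg Prod.fst h)
  · rw [collinear_iff_of_mem (p₀ := Par i) (by simp)] at hc
    obtain ⟨v, hv⟩ := hc
    obtain ⟨r, hr⟩ := hv (Par j) (by simp)
    obtain ⟨s, hs⟩ := hv (Par k) (by simp)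
    have a1 : (j : ℝ) = r * v.1 + i := congrArg Prod.fst hr
    have a2 : (j : ℝ) ^ 2 = r * v.2 + (i : ℝ) ^ 2 := congrArg Prod.snd hr
    have a3 : (k : ℝ) = s * v.1 + i := congrArg Prod.fst hs
    have a4 : (k : ℝ) ^ 2 = s * v.2 + (i : ℝ) ^ 2 := congrArg Prod.snd hs
    have b1 : (j : ℝ) - i ≠ 0 := sub_ne_zero.2 (by exact_mod_cast hij.symm)
    have b2 : (k : ℝ) - i ≠ 0 := sub_ne_zero.2 (by exact_mod_cast hik.symm)
    have b3 : (k : ℝ) - j ≠ 0 := sub_ne_zero.2 (by exact_mod_cast hjk.symm)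
    apply mul_ne_zero (mul_ne_zero b1 b2) b3
    have c1 : (j : ℝ) - i = r * v.1 := by linarith
    have c2 : (k : ℝ) - i = s * v.1 := by linarith
    have c3 : (j : ℝ) ^ 2 - (i : ℝ) ^ 2 = r * v.2 := by linarith
    have c4 : (k : ℝ) ^ 2 - (i : ℝ) ^ 2 = s * v.2 := by linarith
    have : ((j : ℝ) - i) * ((k : ℝ) - i) * ((k : ℝ) - j) =
        ((j : ℝ) - i) * ((k : ℝ) ^ 2 - (i : ℝ) ^ 2) - ((k : ℝ) - i) * ((j : ℝ) ^ 2 - (i : ℝ) ^ 2) := by
      ring
    rw [this, c1, c2, c3, c4]; ring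

lemma par_meets (α β γ : ℝ) (h0 : α ≠ 0 ∨ β ≠ 0) : ∃ a b : ℕ, ∀ e : ℕ × ℕ, e.1 < e.2 →
    Meets Par α β γ e → (e.1 < a ∧ a ≤ e.2) ∨ (e.1 < b ∧ b ≤ e.2) := by
  have hroots : ∃ x y : ℝ, ∀ z : ℝ, α * z + β * z ^ 2 = γ → z = x ∨ z = y := by
    by_cases hβ : β = 0
    · have hα : α ≠ 0 := by simpa [hβ] using h0
      refine ⟨γ / α, 0, fun z hz => Or.inl ?_⟩
      rw [hβ] at hz
      field_simp
      linarith
    · by_cases hex : ∃ x : ℝ, α * x + β * x ^ 2 = γ
      · obtain ⟨x, hx⟩ := hex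
        refine ⟨x, -α / β - x, fun z hz => ?_⟩
        have : (z - x) * (α + β * (z + x)) = 0 := by linear_combination hz - hx
        rcases mul_eq_zero.1 this with h | h
        · left; linarith
        · right; field_simp; linarith
      · exact ⟨0, 0, fun z hz => absurd ⟨z, hz⟩ hex⟩
  obtain ⟨x, y, hxy⟩ := hroots
  refine ⟨⌊x⌋₊ + 1, ⌊y⌋₊ + 1, fun e he hm => ?_⟩
  obtain ⟨z, ⟨s, t, hs, ht, hst, rfl⟩, hz⟩ := hm
  simp only [Par, Prod.fst_add, Prod.snd_add, Prod.smul_fst, Prod.smul_snd, smul_eq_mul] at hz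
  have he' : (e.1 : ℝ) < e.2 := by exact_mod_cast he
  have hz' : s * (α * e.1 + β * (e.1 : ℝ) ^ 2 - γ) + t * (α * e.2 + β * (e.2 : ℝ) ^ 2 - γ) = 0 := by
    linear_combination hz - γ * hst
  have hρ : ∃ ρ : ℝ, (e.1 : ℝ) ≤ ρ ∧ ρ < e.2 ∧ α * ρ + β * ρ ^ 2 = γ := by
    by_cases h2 : α * e.2 + β * (e.2 : ℝ) ^ 2 = γ
    · refine ⟨e.1, le_rfl, he', ?_⟩
      rw [h2, sub_self, mul_zero, add_zero] at hz'
      have := (mul_eq_zero.1 hz').resolve_left hs.ne'
      linarith
    · have hc : ContinuousOn (fun z : ℝ => α * z + β * z ^ 2) (Set.uIcc (e.1 : ℝ) e.2) := by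
        fun_prop
      have hmem : γ ∈ Set.uIcc (α * e.1 + β * (e.1 : ℝ) ^ 2) (α * e.2 + β * (e.2 : ℝ) ^ 2) := by
        rw [Set.mem_uIcc]
        rcases le_total γ (α * e.2 + β * (e.2 : ℝ) ^ 2) with h | h
        · left; refine ⟨?_, h⟩
          by_contra h'
          nlinarith [mul_pos hs (sub_pos.2 (not_le.1 h')), mul_nonneg ht.le (sub_nonneg.2 h),
            lt_of_le_of_ne h (Ne.symm h2)]
        · right; refine ⟨h, ?_⟩
          by_contra h'
          nlinarith [mul_pos hs (sub_pos.2 (not_le.1 h')), mul_nonneg ht.le (sub_nonneg.2 h)]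
      obtain ⟨ρ, h3, h4⟩ := intermediate_value_uIcc hc hmem
      rw [Set.uIcc_of_le he'.le] at h3
      refine ⟨ρ, h3.1, lt_of_le_of_ne h3.2 ?_, h4⟩
      rintro rfl
      exact h2 h4
  obtain ⟨ρ, r1, r2, r3⟩ := hρ
  have r0 : 0 ≤ ρ := le_trans (by positivity) r1
  have k1 : e.1 < ⌊ρ⌋₊ + 1 := Nat.lt_succ_of_le (Nat.le_floor r1)
  have k2 : ⌊ρ⌋₊ + 1 ≤ e.2 := (Nat.floor_lt r0).2 r2
  rcases hxy ρ r3 with rfl | rfl
  · exact Or.inl ⟨k1, k2⟩
  · exact Or.inr ⟨k1, k2⟩

/-- the edge set -/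
def Ed (n l j : ℕ) : Finset (ℕ × ℕ) :=
  (range n ×ˢ range n).filter
    (fun e => e.1 < e.2 ∧ (e.2 ≤ e.1 + l ∨ (e.2 = e.1 + l + 1 ∧ e.1 % (l + 1) < j)))

lemma Ed_ok (n l j : ℕ) : ∀ e ∈ Ed n l j, e.1 < e.2 ∧ e.2 < n := by
  intro e he
  simp only [Ed, mem_filter, mem_product, mem_range] at he
  omega

lemma gap (n l j a : ℕ) :
    2 * ((Ed n l j).filter (fun e => e.1 < a ∧ a ≤ e.2)).card ≤ l * (l + 1) + 2 * j := by
  have hsub : (Ed n l j).filter (fun e => e.1 < a ∧ a ≤ e.2) ⊆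
      (range (l + 1)).biUnion (fun d => (Ico (a - d) a).image (fun i => (i, i + d))) ∪
        ((Ico (a - (l + 1)) a).filter (fun i => i % (l + 1) < j)).image (fun i => (i, i + l + 1)) := by
    intro e he
    simp only [Ed, mem_filter, mem_product, mem_range] at he
    simp only [mem_union, mem_biUnion, mem_image, mem_range, mem_Ico, mem_filter]
    rcases he.1.2.2 with h | h
    · left
      exact ⟨e.2 - e.1, by omega, e.1, by omega, Prod.ext rfl (by simp only; omega)⟩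
    · right
      exact ⟨e.1, ⟨by omega, h.2⟩, Prod.ext rfl (by simp only; omega)⟩
  have h1 : ((range (l + 1)).biUnion (fun d => (Ico (a - d) a).image (fun i => (i, i + d)))).card ≤
      ∑ d ∈ range (l + 1), d := by
    refine card_biUnion_le.trans (sum_le_sum fun d _ => card_image_le.trans ?_)
    rw [Nat.card_Ico]; omega
  have h2 : (((Ico (a - (l + 1)) a).filter (fun i => i % (l + 1) < j)).image
      (fun i => (i, i + l + 1))).card ≤ j := by
    refine card_image_le.trans ?_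
    refine le_trans (card_le_card_of_injOn (fun i => i % (l + 1)) (t := range j) ?_ ?_) (by simp)
    · intro i hi
      rw [mem_coe, mem_filter] at hi
      exact mem_coe.2 (mem_range.2 hi.2)
    · intro i hi i' hi' h
      rw [mem_coe, mem_filter, mem_Ico] at hi hi'
      have h' : i ≡ i' [MOD (l + 1)] := h
      rcases le_total i i' with c | c
      · have := Nat.eq_zero_of_dvd_of_lt ((Nat.modEq_iff_dvd' c).1 h') (by omega)
        omega
      · have := Nat.eq_zero_of_dvd_of_lt ((Nat.modEq_iff_dvd' c).1 h'.symm) (by omega)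
        omega
  have h3 := Finset.sum_range_id_mul_two (l + 1)
  simp only [Nat.add_sub_cancel] at h3
  have h4 := (card_le_card hsub).trans (card_union_le _ _)
  nlinarith

open Classical in
lemma Ed_lines (n l j : ℕ) (α β γ : ℝ) (h0 : α ≠ 0 ∨ β ≠ 0) :
    ((Ed n l j).filter (Meets Par α β γ)).card ≤ l * (l + 1) + 2 * j := by
  obtain ⟨a, b, h⟩ := par_meets α β γ h0
  have hsub : (Ed n l j).filter (Meets Par α β γ) ⊆
      (Ed n l j).filter (fun e => e.1 < a ∧ a ≤ e.2) ∪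
        (Ed n l j).filter (fun e => e.1 < b ∧ b ≤ e.2) := by
    intro e he
    rw [mem_filter] at he
    rw [mem_union, mem_filter, mem_filter]
    rcases h e (Ed_ok n l j e he.1).1 he.2 with h | h
    · exact Or.inl ⟨he.1, h⟩
    · exact Or.inr ⟨he.1, h⟩
  have h1 := (card_le_card hsub).trans (card_union_le _ _)
  have h2 := gap n l j a
  have h3 := gap n l j b
  omega

lemma Ed_card (n l j : ℕ) (hj : j ≤ l) :
    (n - l) * l + (n / (l + 1) - 1) * j ≤ (Ed n l j).card := by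
  have h1 : ((range (n - l) ×ˢ range l).image (fun x => (x.1, x.1 + x.2 + 1))).card = (n - l) * l := by
    rw [card_image_of_injective, card_product, card_range, card_range]
    intro x y h
    simp only [Prod.mk.injEq] at h
    exact Prod.ext h.1 (by omega)
  have h2 : ((range (n / (l + 1) - 1) ×ˢ range j).image
      (fun x => ((l + 1) * x.1 + x.2, (l + 1) * x.1 + x.2 + l + 1))).card = (n / (l + 1) - 1) * j := by
    rw [card_image_of_injOn, card_product, card_range, card_range]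
    intro x hx y hy h
    simp only [coe_product, coe_range, Set.mem_prod, Set.mem_Iio] at hx hy
    simp only [Prod.mk.injEq] at h
    have a1 : ((l + 1) * x.1 + x.2) % (l + 1) = ((l + 1) * y.1 + y.2) % (l + 1) := by rw [h.1]
    rw [Nat.mul_add_mod, Nat.mul_add_mod, Nat.mod_eq_of_lt (by omega),
      Nat.mod_eq_of_lt (by omega)] at a1
    have a2 : (l + 1) * x.1 = (l + 1) * y.1 := by omega
    exact Prod.ext (Nat.eq_of_mul_eq_mul_left (by omega) a2) a1
  rw [← h1, ← h2, ← card_union_of_disjoint]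
  · apply card_le_card
    intro e he
    simp only [mem_union, mem_image, mem_product, mem_range] at he
    simp only [Ed, mem_filter, mem_product, mem_range]
    rcases he with ⟨x, hx, rfl⟩ | ⟨x, hx, rfl⟩
    · simp only; omega
    · simp only
      have a1 : (l + 1) * (x.1 + 2) ≤ (l + 1) * (n / (l + 1)) := Nat.mul_le_mul_left _ (by omega)
      have a2 := Nat.mul_div_le n (l + 1)
      have a3 : (l + 1) * (x.1 + 2) = (l + 1) * x.1 + 2 * (l + 1) := by ring
      have a4 : ((l + 1) * x.1 + x.2) % (l + 1) = x.2 := by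
        rw [Nat.mul_add_mod, Nat.mod_eq_of_lt (by omega)]
      refine ⟨⟨by omega, by omega⟩, by omega, Or.inr ⟨trivial, by omega⟩⟩
  · rw [disjoint_left]
    intro e h1 h2
    simp only [mem_image, mem_product, mem_range] at h1 h2
    obtain ⟨x, hx, rfl⟩ := h1
    obtain ⟨y, hy, h⟩ := h2
    simp only [Prod.mk.injEq] at h
    omega

end Pool.Agent.H.MP_b5bf4a_co
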